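import Pool.Agent.Helper88.Ric.Stmts

/-!
# MP_092777_ag, module ZJET: jets of the theta functions at real points

A class of series `∑ c_n X^a X̄^a' Y^b Ȳ^b'`, stable under the Wirtinger derivatives.
-/

set_option autoImplicit false

open scoped ContDiff Topology ComplexConjugate
open Complex

noncomputable section

namespace RicP

/-- data of a series -/
structure ZJDat (ι : Type) where
  c : ι → ℂ
  a : ι → ℕ
  a' : ι → ℕ
  b : ι → ℕ
  b' : ι → ℕ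

def zjT (a a' b b' : ℕ) (p : E) : ℂ := p.1 ^ a * (conj p.1) ^ a' * p.2 ^ b * (conj p.2) ^ b'

def zjF1 : E →L[ℝ] ℂ := ContinuousLinearMap.fst ℝ ℂ ℂ
def zjF2 : E →L[ℝ] ℂ := ContinuousLinearMap.snd ℝ ℂ ℂ
def zjC1 : E →L[ℝ] ℂ := (Complex.conjCLE : ℂ →L[ℝ] ℂ).comp zjF1
def zjC2 : E →L[ℝ] ℂ := (Complex.conjCLE : ℂ →L[ℝ] ℂ).comp zjF2

theorem zj_F1 (p : E) : zjF1 p = p.1 := rfl
theorem zj_F2 (p : E) : zjF2 p = p.2 := rfl
theorem zj_C1 (p : E) : zjC1 p = conj p.1 := rfl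
theorem zj_C2 (p : E) : zjC2 p = conj p.2 := rfl

/-- derivative of `zjT` -/
def zjL (a a' b b' : ℕ) (p : E) : E →L[ℝ] ℂ :=
  ((a : ℂ) * zjT (a - 1) a' b b' p) • zjF1 + ((a' : ℂ) * zjT a (a' - 1) b b' p) • zjC1 +
    ((b : ℂ) * zjT a a' (b - 1) b' p) • zjF2 + ((b' : ℂ) * zjT a a' b (b' - 1) p) • zjC2

theorem zj_hasFDerivAt (a a' b b' : ℕ) (p : E) :
    HasFDerivAt (zjT a a' b b') (zjL a a' b b' p) p := by
  have h1 : HasFDerivAt (fun q : E => zjF1 q ^ a) _ p := (zjF1.hasFDerivAt (x := p)).pow a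
  have h2 : HasFDerivAt (fun q : E => zjC1 q ^ a') _ p := (zjC1.hasFDerivAt (x := p)).pow a'
  have h3 : HasFDerivAt (fun q : E => zjF2 q ^ b) _ p := (zjF2.hasFDerivAt (x := p)).pow b
  have h4 : HasFDerivAt (fun q : E => zjC2 q ^ b') _ p := (zjC2.hasFDerivAt (x := p)).pow b'
  have h := ((h1.mul h2).mul h3).mul h4
  refine h.congr_fderiv ?_
  ext v <;>
  · simp only [zjL, zjT, zj_F1, zj_F2, zj_C1, zj_C2, add_apply, Pi.mul_apply,
      smul_apply, smul_eq_mul, nsmul_eq_mul, ContinuousLinearMap.coe_comp,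
      Function.comp_apply, ContinuousLinearMap.inl_apply, ContinuousLinearMap.inr_apply]
    ring

theorem zj_normT (a a' b b' : ℕ) (p : E) :
    ‖zjT a a' b b' p‖ = ‖p.1‖ ^ (a + a') * ‖p.2‖ ^ (b + b') := by
  simp only [zjT, norm_mul, norm_pow, RCLike.norm_conj, pow_add]
  ring

theorem zj_normT_le (a a' b b' : ℕ) (p : E) (R R' : ℝ) (h1 : ‖p.1‖ ≤ R) (h2 : ‖p.2‖ ≤ R') :
    ‖zjT a a' b b' p‖ ≤ R ^ (a + a') * R' ^ (b + b') := by
  rw [zj_normT]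
  have h3 : 0 ≤ R := (norm_nonneg _).trans h1
  gcongr

theorem zj_norm_F1 : ‖zjF1‖ ≤ 1 := ContinuousLinearMap.norm_fst_le ℝ ℂ ℂ
theorem zj_norm_F2 : ‖zjF2‖ ≤ 1 := ContinuousLinearMap.norm_snd_le ℝ ℂ ℂ

theorem zj_norm_C1 : ‖zjC1‖ ≤ 1 := by
  refine ContinuousLinearMap.opNorm_le_bound _ zero_le_one fun p => ?_
  rw [zj_C1, RCLike.norm_conj, one_mul]
  exact norm_fst_le p

theorem zj_norm_C2 : ‖zjC2‖ ≤ 1 := by
  refine ContinuousLinearMap.opNorm_le_bound _ zero_le_one fun p => ?_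
  rw [zj_C2, RCLike.norm_conj, one_mul]
  exact norm_snd_le p

/-- `m R^(m-1+l) ≤ m R^(m+l)/R` -/
theorem zj_pow1 (m l : ℕ) (R : ℝ) (hR : 0 < R) :
    (m : ℝ) * R ^ (m - 1 + l) = m * (R⁻¹ * R ^ (m + l)) := by
  rcases Nat.eq_zero_or_pos m with h | h
  · simp [h]
  · have h1 : m + l = (m - 1 + l) + 1 := by omega
    rw [h1, pow_succ]
    field_simp

theorem zj_normL_le (a a' b b' : ℕ) (p : E) (R R' : ℝ) (h1 : ‖p.1‖ ≤ R) (h2 : ‖p.2‖ ≤ R')
    (hR : 0 < R) (hR' : 0 < R') :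
    ‖zjL a a' b b' p‖ ≤ (R⁻¹ + R'⁻¹) *
      (((a + a' + b + b' + 1 : ℕ) : ℝ) * (R ^ (a + a') * R' ^ (b + b'))) := by
  have key : ∀ (m : ℕ) (t : ℂ) (L : E →L[ℝ] ℂ), ‖L‖ ≤ 1 →
      ‖((m : ℂ) * t) • L‖ ≤ m * ‖t‖ := by
    intro m t L hL
    rw [norm_smul, norm_mul, Complex.norm_natCast]
    calc (m : ℝ) * ‖t‖ * ‖L‖ ≤ (m : ℝ) * ‖t‖ * 1 := by gcongr
      _ = m * ‖t‖ := mul_one _
  have e1 := key a (zjT (a - 1) a' b b' p) zjF1 zj_norm_F1
  have e2 := key a' (zjT a (a' - 1) b b' p) zjC1 zj_norm_C1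
  have e3 := key b (zjT a a' (b - 1) b' p) zjF2 zj_norm_F2
  have e4 := key b' (zjT a a' b (b' - 1) p) zjC2 zj_norm_C2
  set M : ℝ := R ^ (a + a') * R' ^ (b + b') with hM
  have hM0 : 0 ≤ M := by positivity
  have f1 : (a : ℝ) * ‖zjT (a - 1) a' b b' p‖ ≤ a * (R⁻¹ * M) := by
    calc (a : ℝ) * ‖zjT (a - 1) a' b b' p‖
        ≤ a * (R ^ (a - 1 + a') * R' ^ (b + b')) := by
          gcongr; exact zj_normT_le _ _ _ _ p R R' h1 h2
      _ = (a * R ^ (a - 1 + a')) * R' ^ (b + b') := by ring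
      _ = (a * (R⁻¹ * R ^ (a + a'))) * R' ^ (b + b') := by rw [zj_pow1 a a' R hR]
      _ = a * (R⁻¹ * M) := by rw [hM]; ring
  have f2 : (a' : ℝ) * ‖zjT a (a' - 1) b b' p‖ ≤ a' * (R⁻¹ * M) := by
    calc (a' : ℝ) * ‖zjT a (a' - 1) b b' p‖
        ≤ a' * (R ^ (a + (a' - 1)) * R' ^ (b + b')) := by
          gcongr; exact zj_normT_le _ _ _ _ p R R' h1 h2
      _ = (a' * R ^ (a' - 1 + a)) * R' ^ (b + b') := by rw [add_comm a (a' - 1)]; ring
      _ = (a' * (R⁻¹ * R ^ (a' + a))) * R' ^ (b + b') := by rw [zj_pow1 a' a R hR]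
      _ = a' * (R⁻¹ * M) := by rw [hM, add_comm a' a]; ring
  have f3 : (b : ℝ) * ‖zjT a a' (b - 1) b' p‖ ≤ b * (R'⁻¹ * M) := by
    calc (b : ℝ) * ‖zjT a a' (b - 1) b' p‖
        ≤ b * (R ^ (a + a') * R' ^ (b - 1 + b')) := by
          gcongr; exact zj_normT_le _ _ _ _ p R R' h1 h2
      _ = R ^ (a + a') * (b * R' ^ (b - 1 + b')) := by ring
      _ = R ^ (a + a') * (b * (R'⁻¹ * R' ^ (b + b'))) := by rw [zj_pow1 b b' R' hR']
      _ = b * (R'⁻¹ * M) := by rw [hM]; ring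
  have f4 : (b' : ℝ) * ‖zjT a a' b (b' - 1) p‖ ≤ b' * (R'⁻¹ * M) := by
    calc (b' : ℝ) * ‖zjT a a' b (b' - 1) p‖
        ≤ b' * (R ^ (a + a') * R' ^ (b + (b' - 1))) := by
          gcongr; exact zj_normT_le _ _ _ _ p R R' h1 h2
      _ = R ^ (a + a') * (b' * R' ^ (b' - 1 + b)) := by rw [add_comm b (b' - 1)]; ring
      _ = R ^ (a + a') * (b' * (R'⁻¹ * R' ^ (b' + b))) := by rw [zj_pow1 b' b R' hR']
      _ = b' * (R'⁻¹ * M) := by rw [hM, add_comm b' b]; ring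
  have hsum : ‖zjL a a' b b' p‖ ≤ a * (R⁻¹ * M) + a' * (R⁻¹ * M) + b * (R'⁻¹ * M) +
      b' * (R'⁻¹ * M) := by
    unfold zjL
    refine (norm_add_le _ _).trans (add_le_add ((norm_add_le _ _).trans (add_le_add
      ((norm_add_le _ _).trans (add_le_add (e1.trans f1) (e2.trans f2))) (e3.trans f3)))
      (e4.trans f4))
  refine hsum.trans ?_
  have hi : 0 < R⁻¹ := inv_pos.mpr hR
  have hi' : 0 < R'⁻¹ := inv_pos.mpr hR'
  have g1 : 0 ≤ R⁻¹ * M := by positivity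
  have g2 : 0 ≤ R'⁻¹ * M := by positivity
  push_cast
  nlinarith [mul_nonneg (Nat.cast_nonneg (α := ℝ) a) g2, mul_nonneg (Nat.cast_nonneg (α := ℝ) a') g2,
    mul_nonneg (Nat.cast_nonneg (α := ℝ) b) g1, mul_nonneg (Nat.cast_nonneg (α := ℝ) b') g1]

section
variable {ι : Type}

def ZJDat.S (d : ZJDat ι) (p : E) : ℂ := ∑' n, d.c n * zjT (d.a n) (d.a' n) (d.b n) (d.b' n) p

/-- admissible data -/
def ZJDat.Adm (d : ZJDat ι) : Prop := ∀ R R' : ℝ, 0 < R → 0 < R' → R * R' < 1 → ∀ m : ℕ,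
  Summable fun n => ‖d.c n‖ * (((d.a n + d.a' n + d.b n + d.b' n + 1 : ℕ) : ℝ) ^ m *
    (R ^ (d.a n + d.a' n) * R' ^ (d.b n + d.b' n)))

def zjU : Set E := {p : E | ‖p.1 * p.2‖ < 1}

theorem zj_isOpen_U : IsOpen zjU :=
  isOpen_lt (continuous_norm.comp (continuous_fst.mul continuous_snd)) continuous_const

theorem zj_radii (p : E) (hp : p ∈ zjU) : ∃ R R' : ℝ, ‖p.1‖ < R ∧ ‖p.2‖ < R' ∧ R * R' < 1 := by
  have h : ‖p.1‖ * ‖p.2‖ < 1 := by
    rw [← norm_mul]; exact hp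
  have hc : ContinuousAt (fun s : ℝ => (‖p.1‖ + s) * (‖p.2‖ + s)) 0 := by
    fun_prop
  have h0 : (fun s : ℝ => (‖p.1‖ + s) * (‖p.2‖ + s)) 0 < 1 := by simpa using h
  have h2 := hc.eventually (gt_mem_nhds h0)
  obtain ⟨δ, hδ, hball⟩ := Metric.eventually_nhds_iff.mp h2
  refine ⟨‖p.1‖ + δ / 2, ‖p.2‖ + δ / 2, by linarith, by linarith, hball ?_⟩
  rw [Real.dist_eq, sub_zero, abs_of_pos (by linarith)]
  linarith

theorem ZJDat.hasFDerivAt (d : ZJDat ι) (hd : d.Adm) (p : E) (hp : p ∈ zjU) :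
    HasFDerivAt d.S (∑' n, d.c n • zjL (d.a n) (d.a' n) (d.b n) (d.b' n) p) p ∧
      Summable (fun n => d.c n • zjL (d.a n) (d.a' n) (d.b n) (d.b' n) p) := by
  obtain ⟨R, R', h1, h2, h3⟩ := zj_radii p hp
  have hR : 0 < R := (norm_nonneg _).trans_lt h1
  have hR' : 0 < R' := (norm_nonneg _).trans_lt h2
  have hs := (hd R R' hR hR' h3 1).mul_left (R⁻¹ + R'⁻¹)
  have hb : ∀ n, ∀ q ∈ (Metric.ball (0 : ℂ) R ×ˢ Metric.ball (0 : ℂ) R'),
      ‖d.c n • zjL (d.a n) (d.a' n) (d.b n) (d.b' n) q‖ ≤ (R⁻¹ + R'⁻¹) *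
      (‖d.c n‖ * (((d.a n + d.a' n + d.b n + d.b' n + 1 : ℕ) : ℝ) ^ 1 *
        (R ^ (d.a n + d.a' n) * R' ^ (d.b n + d.b' n)))) := by
    intro n q hq
    rw [Set.mem_prod, mem_ball_zero_iff, mem_ball_zero_iff] at hq
    rw [norm_smul, pow_one]
    have := zj_normL_le (d.a n) (d.a' n) (d.b n) (d.b' n) q R R' hq.1.le hq.2.le hR hR'
    calc ‖d.c n‖ * ‖zjL (d.a n) (d.a' n) (d.b n) (d.b' n) q‖ ≤ ‖d.c n‖ * ((R⁻¹ + R'⁻¹) *
      (((d.a n + d.a' n + d.b n + d.b' n + 1 : ℕ) : ℝ) * (R ^ (d.a n + d.a' n) *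
        R' ^ (d.b n + d.b' n)))) := by gcongr
      _ = _ := by ring
  have hpm : p ∈ (Metric.ball (0 : ℂ) R ×ˢ Metric.ball (0 : ℂ) R') := by
    rw [Set.mem_prod, mem_ball_zero_iff, mem_ball_zero_iff]
    exact ⟨h1, h2⟩
  refine ⟨?_, Summable.of_norm_bounded hs fun n => hb n p hpm⟩
  refine hasFDerivAt_tsum_of_isPreconnected hs (Metric.isOpen_ball.prod Metric.isOpen_ball)
    (((convex_ball _ _).prod (convex_ball _ _)).isPreconnected)
    (fun n q _ => (zj_hasFDerivAt _ _ _ _ q).const_smul (d.c n)) hb hpm ?_ hpm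
  refine Summable.of_norm_bounded (hd R R' hR hR' h3 0) fun n => ?_
  rw [pow_zero, one_mul]
  show ‖d.c n * zjT (d.a n) (d.a' n) (d.b n) (d.b' n) p‖ ≤ _
  rw [norm_mul]
  gcongr
  exact zj_normT_le _ _ _ _ p R R' h1.le h2.le

/-- the four derivatives of the data -/
def ZJDat.D1 (d : ZJDat ι) : ZJDat ι := ⟨fun n => d.c n * d.a n, fun n => d.a n - 1, d.a', d.b, d.b'⟩
def ZJDat.D1b (d : ZJDat ι) : ZJDat ι := ⟨fun n => d.c n * d.a' n, d.a, fun n => d.a' n - 1, d.b, d.b'⟩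
def ZJDat.D2 (d : ZJDat ι) : ZJDat ι := ⟨fun n => d.c n * d.b n, d.a, d.a', fun n => d.b n - 1, d.b'⟩
def ZJDat.D2b (d : ZJDat ι) : ZJDat ι := ⟨fun n => d.c n * d.b' n, d.a, d.a', d.b, fun n => d.b' n - 1⟩

theorem zj_adm_aux (R : ℝ) (hR : 0 < R) (x l s : ℕ) (m : ℕ) (c X : ℝ) (hc : 0 ≤ c) (hX : 0 ≤ X) :
    (c * x) * (((x - 1 + l + s + 1 : ℕ) : ℝ) ^ m * (R ^ (x - 1 + l) * X)) ≤
      R⁻¹ * (c * (((x + l + s + 1 : ℕ) : ℝ) ^ (m + 1) * (R ^ (x + l) * X))) := by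
  have h1 : (((x - 1 + l + s + 1 : ℕ) : ℝ)) ≤ ((x + l + s + 1 : ℕ) : ℝ) := by
    exact_mod_cast (by omega : x - 1 + l + s + 1 ≤ x + l + s + 1)
  have h2 : (x : ℝ) ≤ ((x + l + s + 1 : ℕ) : ℝ) := by
    exact_mod_cast (by omega : x ≤ x + l + s + 1)
  calc (c * x) * (((x - 1 + l + s + 1 : ℕ) : ℝ) ^ m * (R ^ (x - 1 + l) * X))
      = c * ((((x - 1 + l + s + 1 : ℕ) : ℝ) ^ m * (x * R ^ (x - 1 + l)) * X)) := by ring
    _ = c * ((((x - 1 + l + s + 1 : ℕ) : ℝ) ^ m * (x * (R⁻¹ * R ^ (x + l))) * X)) := by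
        rw [zj_pow1 x l R hR]
    _ ≤ c * ((((x + l + s + 1 : ℕ) : ℝ) ^ m *
          (((x + l + s + 1 : ℕ) : ℝ) * (R⁻¹ * R ^ (x + l))) * X)) := by
        gcongr
    _ = _ := by ring

theorem ZJDat.adm_D1 (d : ZJDat ι) (hd : d.Adm) : d.D1.Adm := by
  intro R R' hR hR' h m
  refine Summable.of_nonneg_of_le (fun n => by positivity) (fun n => ?_)
    ((hd R R' hR hR' h (m + 1)).mul_left R⁻¹)
  have := zj_adm_aux R hR (d.a n) (d.a' n) (d.b n + d.b' n) m ‖d.c n‖ (R' ^ (d.b n + d.b' n))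
    (norm_nonneg _) (by positivity)
  simp only [ZJDat.D1, norm_mul, Complex.norm_natCast]
  simpa [← add_assoc] using this

theorem ZJDat.adm_D1b (d : ZJDat ι) (hd : d.Adm) : d.D1b.Adm := by
  intro R R' hR hR' h m
  refine Summable.of_nonneg_of_le (fun n => by positivity) (fun n => ?_)
    ((hd R R' hR hR' h (m + 1)).mul_left R⁻¹)
  have := zj_adm_aux R hR (d.a' n) (d.a n) (d.b n + d.b' n) m ‖d.c n‖ (R' ^ (d.b n + d.b' n))
    (norm_nonneg _) (by positivity)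
  simp only [ZJDat.D1b, norm_mul, Complex.norm_natCast]
  have e1 : d.a n + (d.a' n - 1) + d.b n + d.b' n + 1 =
      d.a' n - 1 + d.a n + (d.b n + d.b' n) + 1 := by omega
  have e2 : d.a n + d.a' n + d.b n + d.b' n + 1 = d.a' n + d.a n + (d.b n + d.b' n) + 1 := by omega
  rw [e1, e2, add_comm (d.a n) (d.a' n - 1), add_comm (d.a n) (d.a' n)]
  exact this

theorem ZJDat.adm_D2 (d : ZJDat ι) (hd : d.Adm) : d.D2.Adm := by
  intro R R' hR hR' h m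
  refine Summable.of_nonneg_of_le (fun n => by positivity) (fun n => ?_)
    ((hd R R' hR hR' h (m + 1)).mul_left R'⁻¹)
  have := zj_adm_aux R' hR' (d.b n) (d.b' n) (d.a n + d.a' n) m ‖d.c n‖ (R ^ (d.a n + d.a' n))
    (norm_nonneg _) (by positivity)
  simp only [ZJDat.D2, norm_mul, Complex.norm_natCast]
  have e1 : d.a n + d.a' n + (d.b n - 1) + d.b' n + 1 =
      d.b n - 1 + d.b' n + (d.a n + d.a' n) + 1 := by omega
  have e2 : d.a n + d.a' n + d.b n + d.b' n + 1 = d.b n + d.b' n + (d.a n + d.a' n) + 1 := by omega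
  rw [e1, e2, mul_comm (R ^ (d.a n + d.a' n)) (R' ^ (d.b n - 1 + d.b' n)),
    mul_comm (R ^ (d.a n + d.a' n)) (R' ^ (d.b n + d.b' n))]
  exact this

theorem ZJDat.adm_D2b (d : ZJDat ι) (hd : d.Adm) : d.D2b.Adm := by
  intro R R' hR hR' h m
  refine Summable.of_nonneg_of_le (fun n => by positivity) (fun n => ?_)
    ((hd R R' hR hR' h (m + 1)).mul_left R'⁻¹)
  have := zj_adm_aux R' hR' (d.b' n) (d.b n) (d.a n + d.a' n) m ‖d.c n‖ (R ^ (d.a n + d.a' n))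
    (norm_nonneg _) (by positivity)
  simp only [ZJDat.D2b, norm_mul, Complex.norm_natCast]
  have e1 : d.a n + d.a' n + d.b n + (d.b' n - 1) + 1 =
      d.b' n - 1 + d.b n + (d.a n + d.a' n) + 1 := by omega
  have e2 : d.a n + d.a' n + d.b n + d.b' n + 1 = d.b' n + d.b n + (d.a n + d.a' n) + 1 := by omega
  rw [e1, e2, add_comm (d.b n) (d.b' n - 1), add_comm (d.b n) (d.b' n),
    mul_comm (R ^ (d.a n + d.a' n)) (R' ^ (d.b' n - 1 + d.b n)),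
    mul_comm (R ^ (d.a n + d.a' n)) (R' ^ (d.b' n + d.b n))]
  exact this

theorem zj_deriv_aux (d : ZJDat ι) (hd : d.Adm) (p : E) (hp : p ∈ zjU) (v w : E) (s : ℂ)
    (g : ι → ℂ)
    (hg : ∀ n, (d.c n * zjL (d.a n) (d.a' n) (d.b n) (d.b' n) p v +
      s * (d.c n * zjL (d.a n) (d.a' n) (d.b n) (d.b' n) p w)) / 2 = g n) :
    (fderiv ℝ d.S p v + s * fderiv ℝ d.S p w) / 2 = ∑' n, g n := by
  obtain ⟨h1, h2⟩ := d.hasFDerivAt hd p hp
  rw [h1.fderiv]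
  have h3 := h2.hasSum
  have h4 := h3.mapL (ContinuousLinearMap.apply ℝ ℂ v)
  have h5 := h3.mapL (ContinuousLinearMap.apply ℝ ℂ w)
  have h6 := (h4.add (h5.mul_left s)).div_const 2
  refine (h6.tsum_eq.symm.trans ?_)
  refine tsum_congr fun n => ?_
  rw [← hg n]
  simp

theorem ZJDat.dz1 (d : ZJDat ι) (hd : d.Adm) (p : E) (hp : p ∈ zjU) :
    dz (1, 0) d.S p = d.D1.S p := by
  unfold dz
  have := zj_deriv_aux d hd p hp (1, 0) (I • (1, 0)) (-I)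
    (fun n => d.D1.c n * zjT (d.D1.a n) (d.D1.a' n) (d.D1.b n) (d.D1.b' n) p) ?_
  · refine Eq.trans ?_ this
    ring
  · intro n
    have hI : I * I = -1 := I_mul_I
    simp only [zjL, ZJDat.D1, add_apply, smul_apply,
      zj_F1, zj_F2, zj_C1, zj_C2, Prod.smul_mk, smul_eq_mul, mul_one, mul_zero, map_zero, map_one,
      Complex.conj_I]
    linear_combination (-(1 / 2) * d.c n * (d.a n * zjT (d.a n - 1) (d.a' n) (d.b n) (d.b' n) p) +
      (1 / 2) * d.c n * (d.a' n * zjT (d.a n) (d.a' n - 1) (d.b n) (d.b' n) p)) * hI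

theorem ZJDat.dz2 (d : ZJDat ι) (hd : d.Adm) (p : E) (hp : p ∈ zjU) :
    dz (0, 1) d.S p = d.D2.S p := by
  unfold dz
  have := zj_deriv_aux d hd p hp (0, 1) (I • (0, 1)) (-I)
    (fun n => d.D2.c n * zjT (d.D2.a n) (d.D2.a' n) (d.D2.b n) (d.D2.b' n) p) ?_
  · refine Eq.trans ?_ this
    ring
  · intro n
    have hI : I * I = -1 := I_mul_I
    simp only [zjL, ZJDat.D2, add_apply, smul_apply,
      zj_F1, zj_F2, zj_C1, zj_C2, Prod.smul_mk, smul_eq_mul, mul_one, mul_zero, map_zero, map_one,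
      Complex.conj_I]
    linear_combination (-(1 / 2) * d.c n * (d.b n * zjT (d.a n) (d.a' n) (d.b n - 1) (d.b' n) p) +
      (1 / 2) * d.c n * (d.b' n * zjT (d.a n) (d.a' n) (d.b n) (d.b' n - 1) p)) * hI

theorem ZJDat.dzb1 (d : ZJDat ι) (hd : d.Adm) (p : E) (hp : p ∈ zjU) :
    dzb (1, 0) d.S p = d.D1b.S p := by
  unfold dzb
  have := zj_deriv_aux d hd p hp (1, 0) (I • (1, 0)) I
    (fun n => d.D1b.c n * zjT (d.D1b.a n) (d.D1b.a' n) (d.D1b.b n) (d.D1b.b' n) p) ?_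
  · exact this
  · intro n
    have hI : I * I = -1 := I_mul_I
    simp only [zjL, ZJDat.D1b, add_apply, smul_apply,
      zj_F1, zj_F2, zj_C1, zj_C2, Prod.smul_mk, smul_eq_mul, mul_one, mul_zero, map_zero, map_one,
      Complex.conj_I]
    linear_combination ((1 / 2) * d.c n * (d.a n * zjT (d.a n - 1) (d.a' n) (d.b n) (d.b' n) p) -
      (1 / 2) * d.c n * (d.a' n * zjT (d.a n) (d.a' n - 1) (d.b n) (d.b' n) p)) * hI

theorem ZJDat.dzb2 (d : ZJDat ι) (hd : d.Adm) (p : E) (hp : p ∈ zjU) :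
    dzb (0, 1) d.S p = d.D2b.S p := by
  unfold dzb
  have := zj_deriv_aux d hd p hp (0, 1) (I • (0, 1)) I
    (fun n => d.D2b.c n * zjT (d.D2b.a n) (d.D2b.a' n) (d.D2b.b n) (d.D2b.b' n) p) ?_
  · exact this
  · intro n
    have hI : I * I = -1 := I_mul_I
    simp only [zjL, ZJDat.D2b, add_apply, smul_apply,
      zj_F1, zj_F2, zj_C1, zj_C2, Prod.smul_mk, smul_eq_mul, mul_one, mul_zero, map_zero, map_one,
      Complex.conj_I]
    linear_combination ((1 / 2) * d.c n * (d.b n * zjT (d.a n) (d.a' n) (d.b n - 1) (d.b' n) p) -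
      (1 / 2) * d.c n * (d.b' n * zjT (d.a n) (d.a' n) (d.b n) (d.b' n - 1) p)) * hI

theorem zj_dz_congr (v : E) (f g : E → ℂ) (h : ∀ p ∈ zjU, f p = g p) (p : E) (hp : p ∈ zjU) :
    dz v f p = dz v g p := by
  have : f =ᶠ[𝓝 p] g := Filter.eventually_of_mem (zj_isOpen_U.mem_nhds hp) h
  unfold dz
  rw [this.fderiv_eq]

theorem zj_dzb_congr (v : E) (f g : E → ℂ) (h : ∀ p ∈ zjU, f p = g p) (p : E) (hp : p ∈ zjU) :
    dzb v f p = dzb v g p := by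
  have : f =ᶠ[𝓝 p] g := Filter.eventually_of_mem (zj_isOpen_U.mem_nhds hp) h
  unfold dzb
  rw [this.fderiv_eq]

def ZJDat.DJ (d : ZJDat ι) (J : Fin 6) : ZJDat ι :=
  match J with
  | 0 => d
  | 1 => d.D1b
  | 2 => d.D2b
  | 3 => d.D1b.D1b
  | 4 => d.D2b.D1b
  | 5 => d.D2b.D2b

def ZJDat.DI (d : ZJDat ι) (I : Fin 6) : ZJDat ι :=
  match I with
  | 0 => d
  | 1 => d.D1
  | 2 => d.D2
  | 3 => d.D1.D1
  | 4 => d.D2.D1
  | 5 => d.D2.D2

theorem zj_dJ (d : ZJDat ι) (hd : d.Adm) (f : E → ℂ) (hf : ∀ p ∈ zjU, f p = d.S p) (J : Fin 6) :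
    (d.DJ J).Adm ∧ ∀ p ∈ zjU, dJ J f p = (d.DJ J).S p := by
  have h1 : ∀ p ∈ zjU, dzb (1, 0) f p = d.D1b.S p := fun p hp =>
    (zj_dzb_congr _ _ _ hf p hp).trans (d.dzb1 hd p hp)
  have h2 : ∀ p ∈ zjU, dzb (0, 1) f p = d.D2b.S p := fun p hp =>
    (zj_dzb_congr _ _ _ hf p hp).trans (d.dzb2 hd p hp)
  have a1 := d.adm_D1b hd
  have a2 := d.adm_D2b hd
  fin_cases J
  · exact ⟨hd, hf⟩
  · exact ⟨a1, h1⟩
  · exact ⟨a2, h2⟩
  · exact ⟨d.D1b.adm_D1b a1, fun p hp =>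
      (zj_dzb_congr _ _ _ h1 p hp).trans (d.D1b.dzb1 a1 p hp)⟩
  · exact ⟨d.D2b.adm_D1b a2, fun p hp =>
      (zj_dzb_congr _ _ _ h2 p hp).trans (d.D2b.dzb1 a2 p hp)⟩
  · exact ⟨d.D2b.adm_D2b a2, fun p hp =>
      (zj_dzb_congr _ _ _ h2 p hp).trans (d.D2b.dzb2 a2 p hp)⟩

theorem zj_dI (d : ZJDat ι) (hd : d.Adm) (f : E → ℂ) (hf : ∀ p ∈ zjU, f p = d.S p) (J : Fin 6) :
    ∀ p ∈ zjU, dI J f p = (d.DI J).S p := by
  have h1 : ∀ p ∈ zjU, dz (1, 0) f p = d.D1.S p := fun p hp =>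
    (zj_dz_congr _ _ _ hf p hp).trans (d.dz1 hd p hp)
  have h2 : ∀ p ∈ zjU, dz (0, 1) f p = d.D2.S p := fun p hp =>
    (zj_dz_congr _ _ _ hf p hp).trans (d.dz2 hd p hp)
  have a1 := d.adm_D1 hd
  have a2 := d.adm_D2 hd
  fin_cases J
  · exact hf
  · exact h1
  · exact h2
  · exact fun p hp => (zj_dz_congr _ _ _ h1 p hp).trans (d.D1.dz1 a1 p hp)
  · exact fun p hp => (zj_dz_congr _ _ _ h2 p hp).trans (d.D2.dz1 a2 p hp)
  · exact fun p hp => (zj_dz_congr _ _ _ h2 p hp).trans (d.D2.dz2 a2 p hp)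

theorem zj_jet (d : ZJDat ι) (hd : d.Adm) (φ : E → ℝ) (hf : ∀ p ∈ zjU, toC φ p = d.S p)
    (I J : Fin 6) : ∀ p ∈ zjU, jet φ p I J = ((d.DJ J).DI I).S p := by
  obtain ⟨h1, h2⟩ := zj_dJ d hd _ hf J
  exact zj_dI (d.DJ J) h1 _ h2 I

end

/-! ### The theta functions -/

theorem zj_summable_nat (k : ℕ) (hk : 1 ≤ k) (ρ r : ℝ) (h0 : 0 < ρ) (h1 : ρ < 1) (hr : 0 ≤ r)
    (m : ℕ) : Summable fun n : ℕ => ((2 * k * n ^ 2 + 1 : ℕ) : ℝ) ^ m *
      (ρ ^ (k * (n * (n - 1))) * (r ^ k) ^ n) := by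
  have ht : Filter.Tendsto (fun n : ℕ => ρ ^ (k * (n - 1)) * r ^ k) Filter.atTop (𝓝 0) := by
    have e1 : Filter.Tendsto (fun n : ℕ => k * (n - 1)) Filter.atTop Filter.atTop := by
      refine Filter.tendsto_atTop_mono (f := fun n : ℕ => n - 1) (fun n => ?_)
        (Filter.tendsto_sub_atTop_nat 1)
      exact Nat.le_mul_of_pos_left _ hk
    have e2 := (tendsto_pow_atTop_nhds_zero_of_lt_one h0.le h1).comp e1
    simpa using e2.mul_const (r ^ k)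
  have hev : ∀ᶠ n : ℕ in Filter.atTop, ρ ^ (k * (n - 1)) * r ^ k ≤ 1 / 2 := by
    have := ht.eventually (gt_mem_nhds (show (0 : ℝ) < 1 / 2 by norm_num))
    exact this.mono fun n hn => hn.le
  have hs : Summable fun n : ℕ => ((2 * k + 1 : ℕ) : ℝ) ^ m * (2 *
      (((n + 1 : ℕ) : ℝ) ^ (2 * m) * (1 / 2 : ℝ) ^ (n + 1))) := by
    have e1 := summable_pow_mul_geometric_of_norm_lt_one (2 * m) (r := (1 / 2 : ℝ)) (by norm_num)
    exact (((summable_nat_add_iff 1).mpr e1).mul_left 2).mul_left _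
  refine Summable.of_norm_bounded_eventually_nat hs ?_
  filter_upwards [hev] with n hn
  have e1 : ρ ^ (k * (n * (n - 1))) * (r ^ k) ^ n = (ρ ^ (k * (n - 1)) * r ^ k) ^ n := by
    rw [mul_pow, ← pow_mul ρ]
    congr 2
    ring
  have e0 : 0 ≤ ρ ^ (k * (n - 1)) * r ^ k := by positivity
  have e2 : (ρ ^ (k * (n - 1)) * r ^ k) ^ n ≤ (1 / 2 : ℝ) ^ n := by gcongr
  have e3 : ((2 * k * n ^ 2 + 1 : ℕ) : ℝ) ≤ ((2 * k + 1 : ℕ) : ℝ) * ((n + 1 : ℕ) : ℝ) ^ 2 := by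
    have : 2 * k * n ^ 2 + 1 ≤ (2 * k + 1) * (n + 1) ^ 2 := by
      nlinarith [Nat.zero_le (k * n), Nat.zero_le k, Nat.zero_le (n ^ 2), Nat.zero_le n]
    exact_mod_cast this
  rw [e1, Real.norm_of_nonneg (by positivity)]
  calc ((2 * k * n ^ 2 + 1 : ℕ) : ℝ) ^ m * (ρ ^ (k * (n - 1)) * r ^ k) ^ n
      ≤ (((2 * k + 1 : ℕ) : ℝ) * ((n + 1 : ℕ) : ℝ) ^ 2) ^ m * (1 / 2 : ℝ) ^ n := by gcongr
    _ = _ := by
        rw [mul_pow, ← pow_mul, pow_succ (1 / 2 : ℝ) n]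
        ring

theorem zj_exA_nat (k n : ℕ) : 2 * exA k (n : ℤ) = k * (n * (n + 1)) := by
  unfold exA
  have h : ((n : ℤ) * ((n : ℤ) + 1) / 2).toNat = n * (n + 1) / 2 := by
    rw [← Int.toNat_natCast (n * (n + 1) / 2)]
    congr 1
  rw [h]
  have h2 : 2 * (n * (n + 1) / 2) = n * (n + 1) := Nat.two_mul_div_two_of_even (Nat.even_mul_succ_self n)
  calc 2 * (k * (n * (n + 1) / 2)) = k * (2 * (n * (n + 1) / 2)) := by ring
    _ = _ := by rw [h2]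

theorem zj_exB_neg (k : ℕ) (n : ℤ) : exB k (-n) = exA k n := by
  unfold exA exB
  congr 3
  ring

theorem zj_exA_neg (k : ℕ) (n : ℤ) : exA k (-n) = exB k n := by
  unfold exA exB
  congr 3
  ring

theorem zj_exB_nat (k n : ℕ) : 2 * exB k (n : ℤ) = k * (n * (n - 1)) := by
  rcases n with _ | n
  · simp [exB]
  · have h : exB k ((n + 1 : ℕ) : ℤ) = exA k (n : ℤ) := by
      unfold exA exB
      congr 3
      push_cast
      ring
    rw [h, zj_exA_nat]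
    simp only [Nat.add_sub_cancel]
    ring

theorem zj_exA_int (k : ℕ) (n : ℤ) : 2 * exA k n = k * (n * (n + 1)).toNat := by
  have h0 : 0 ≤ n * (n + 1) := by
    rcases le_or_gt 0 n with h | h
    · positivity
    · nlinarith
  have h2 : 2 * (n * (n + 1) / 2) = n * (n + 1) := Int.two_mul_ediv_two_of_even (Int.even_mul_succ_self n)
  have h3 : 2 * (n * (n + 1) / 2).toNat = (n * (n + 1)).toNat := by omega
  unfold exA
  rw [← h3]
  ring

theorem zj_exB_int (k : ℕ) (n : ℤ) : 2 * exB k n = k * (n * (n - 1)).toNat := by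
  rw [← zj_exA_neg, zj_exA_int]
  congr 2
  ring

/-- data of the theta function -/
def zjTh (k : ℕ) : ZJDat ℤ := ⟨fun _ => 1, exA k, exA k, exB k, exB k⟩

theorem zj_adm_Th (k : ℕ) (hk : 1 ≤ k) : (zjTh k).Adm := by
  intro R R' hR hR' h m
  have hρ : 0 < R * R' := mul_pos hR hR'
  simp only [zjTh, norm_one, one_mul]
  refine Summable.of_nat_of_neg ?_ ?_
  · have := zj_summable_nat k hk (R * R') (R ^ 2) hρ h (by positivity) m
    refine this.congr fun n => ?_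
    have eA := zj_exA_nat k n
    have eB := zj_exB_nat k n
    have e1 : exA k (n : ℤ) + exA k n + exB k n + exB k n + 1 = 2 * k * n ^ 2 + 1 := by
      rcases n with _ | n
      · simp at eA eB ⊢
        omega
      · simp only [Nat.add_sub_cancel] at eB
        nlinarith
    have e2 : exA k (n : ℤ) + exA k n = k * (n * (n - 1)) + 2 * (k * n) := by
      rcases n with _ | n
      · simp at eA ⊢
        omega
      · simp only [Nat.add_sub_cancel] at eB ⊢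
        nlinarith
    have e3 : exB k (n : ℤ) + exB k n = k * (n * (n - 1)) := by omega
    rw [e1, e2, e3, pow_add, mul_pow, ← pow_mul, ← pow_mul]
    ring
  · have := zj_summable_nat k hk (R * R') (R' ^ 2) hρ h (by positivity) m
    refine this.congr fun n => ?_
    have eA := zj_exA_nat k n
    have eB := zj_exB_nat k n
    rw [zj_exA_neg, zj_exB_neg]
    have e1 : exB k (n : ℤ) + exB k n + exA k n + exA k n + 1 = 2 * k * n ^ 2 + 1 := by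
      rcases n with _ | n
      · simp at eA eB ⊢
        omega
      · simp only [Nat.add_sub_cancel] at eB
        nlinarith
    have e2 : exA k (n : ℤ) + exA k n = k * (n * (n - 1)) + 2 * (k * n) := by
      rcases n with _ | n
      · simp at eA ⊢
        omega
      · simp only [Nat.add_sub_cancel] at eB ⊢
        nlinarith
    have e3 : exB k (n : ℤ) + exB k n = k * (n * (n - 1)) := by omega
    rw [e1, e2, e3, pow_add, mul_pow, ← pow_mul, ← pow_mul]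
    ring

theorem zj_T_diag (a b : ℕ) (p : E) :
    zjT a a b b p = ((‖p.1‖ ^ (2 * a) * ‖p.2‖ ^ (2 * b) : ℝ) : ℂ) := by
  unfold zjT
  rw [← mul_pow, mul_assoc, ← mul_pow, Complex.mul_conj', Complex.mul_conj', ← pow_mul, ← pow_mul]
  push_cast
  ring

theorem zj_Zk (k : ℕ) (p : E) : toC (Zk k) p = (zjTh k).S p := by
  unfold toC Zk ZJDat.S
  rw [Complex.ofReal_tsum]
  refine tsum_congr fun n => ?_
  simp only [zjTh, one_mul]
  rw [zj_T_diag, zj_exA_int, zj_exB_int]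

/-- data of `1 - |X Y|^{2k}` -/
def zjBd (k : ℕ) : ZJDat (Fin 2) := ⟨![1, -1], ![0, k], ![0, k], ![0, k], ![0, k]⟩

theorem zj_adm_Bd (k : ℕ) : (zjBd k).Adm := fun _ _ _ _ _ _ => Summable.of_finite

theorem zj_Bd (k : ℕ) (p : E) :
    toC (fun p : E => 1 - ‖p.1 * p.2‖ ^ (2 * k)) p = (zjBd k).S p := by
  unfold toC ZJDat.S
  rw [tsum_fintype, Fin.sum_univ_two]
  simp only [zjBd, Matrix.cons_val_zero, Matrix.cons_val_one]
  rw [zj_T_diag, zj_T_diag, norm_mul, mul_pow]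
  push_cast
  ring

/-! ### Evaluation at real points -/

theorem zj_T_real (a a' b b' : ℕ) (x y : ℝ) :
    zjT a a' b b' ((x : ℂ), (y : ℂ)) = ((x ^ (a + a') * y ^ (b + b') : ℝ) : ℂ) := by
  unfold zjT
  simp only [Complex.conj_ofReal]
  push_cast
  ring

theorem zj_sub_mul (a : ℕ) : (a : ℂ) * ((a - 1 : ℕ) : ℂ) = (a : ℂ) * ((a : ℂ) - 1) := by
  rcases a with _ | a
  · simp
  · simp

theorem zj_DJ_data {ι : Type} (d : ZJDat ι) (J : Fin 6) (n : ι) :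
    (d.DJ J).c n = d.c n * ((cJ J (d.a' n) (d.b' n) : ℝ) : ℂ) ∧ (d.DJ J).a n = d.a n ∧
      (d.DJ J).b n = d.b n ∧ (d.DJ J).a' n = d.a' n - eX J ∧ (d.DJ J).b' n = d.b' n - eY J := by
  have h1 := zj_sub_mul (d.a' n)
  have h2 := zj_sub_mul (d.b' n)
  fin_cases J
  · simp [ZJDat.DJ, cJ, eX, eY]
  · simp [ZJDat.DJ, ZJDat.D1b, cJ, eX, eY]
  · simp [ZJDat.DJ, ZJDat.D2b, cJ, eX, eY]
  · refine ⟨?_, rfl, rfl, ?_, ?_⟩
    · simp only [ZJDat.DJ, ZJDat.D1b, cJ, Matrix.cons_val]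
      push_cast
      rw [← h1]
      ring
    · show d.a' n - 1 - 1 = d.a' n - 2
      omega
    · rfl
  · refine ⟨?_, rfl, rfl, rfl, rfl⟩
    simp only [ZJDat.DJ, ZJDat.D1b, ZJDat.D2b, cJ, Matrix.cons_val]
    push_cast
    ring
  · refine ⟨?_, rfl, rfl, ?_, ?_⟩
    · simp only [ZJDat.DJ, ZJDat.D2b, cJ, Matrix.cons_val]
      push_cast
      rw [← h2]
      ring
    · rfl
    · show d.b' n - 1 - 1 = d.b' n - 2
      omega

theorem zj_DI_data {ι : Type} (d : ZJDat ι) (J : Fin 6) (n : ι) :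
    (d.DI J).c n = d.c n * ((cJ J (d.a n) (d.b n) : ℝ) : ℂ) ∧ (d.DI J).a' n = d.a' n ∧
      (d.DI J).b' n = d.b' n ∧ (d.DI J).a n = d.a n - eX J ∧ (d.DI J).b n = d.b n - eY J := by
  have h1 := zj_sub_mul (d.a n)
  have h2 := zj_sub_mul (d.b n)
  fin_cases J
  · simp [ZJDat.DI, cJ, eX, eY]
  · simp [ZJDat.DI, ZJDat.D1, cJ, eX, eY]
  · simp [ZJDat.DI, ZJDat.D2, cJ, eX, eY]
  · refine ⟨?_, rfl, rfl, ?_, ?_⟩
    · simp only [ZJDat.DI, ZJDat.D1, cJ, Matrix.cons_val]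
      push_cast
      rw [← h1]
      ring
    · show d.a n - 1 - 1 = d.a n - 2
      omega
    · rfl
  · refine ⟨?_, rfl, rfl, rfl, rfl⟩
    simp only [ZJDat.DI, ZJDat.D1, ZJDat.D2, cJ, Matrix.cons_val]
    push_cast
    ring
  · refine ⟨?_, rfl, rfl, ?_, ?_⟩
    · simp only [ZJDat.DI, ZJDat.D2, cJ, Matrix.cons_val]
      push_cast
      rw [← h2]
      ring
    · rfl
    · show d.b n - 1 - 1 = d.b n - 2
      omega

theorem zj_two_le (a : ℕ) (h : (a : ℝ) * ((a : ℝ) - 1) ≠ 0) : 2 ≤ a := by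
  by_contra h'
  have : a = 0 ∨ a = 1 := by omega
  rcases this with h0 | h0 <;> simp [h0] at h

theorem zj_cJ_ne (J : Fin 6) (a b : ℕ) (h : cJ J a b ≠ 0) : eX J ≤ a ∧ eY J ≤ b := by
  fin_cases J
  · exact ⟨Nat.zero_le _, Nat.zero_le _⟩
  · refine ⟨?_, Nat.zero_le _⟩
    show 1 ≤ a
    have : (a : ℝ) ≠ 0 := h
    exact Nat.one_le_iff_ne_zero.mpr (by exact_mod_cast this)
  · refine ⟨Nat.zero_le _, ?_⟩
    show 1 ≤ b
    have : (b : ℝ) ≠ 0 := h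
    exact Nat.one_le_iff_ne_zero.mpr (by exact_mod_cast this)
  · exact ⟨zj_two_le a h, Nat.zero_le _⟩
  · have h' : (a : ℝ) * b ≠ 0 := h
    refine ⟨?_, ?_⟩
    · show 1 ≤ a
      exact Nat.one_le_iff_ne_zero.mpr (by exact_mod_cast left_ne_zero_of_mul h')
    · show 1 ≤ b
      exact Nat.one_le_iff_ne_zero.mpr (by exact_mod_cast right_ne_zero_of_mul h')
  · exact ⟨Nat.zero_le _, zj_two_le b h⟩

/-- the terms of the derived series -/
theorem zj_terms {ι : Type} (d : ZJDat ι) (hd : d.a' = d.a) (hd' : d.b' = d.b) (I J : Fin 6)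
    (n : ι) (x y : ℝ) :
    ((d.DJ J).DI I).c n * zjT (((d.DJ J).DI I).a n) (((d.DJ J).DI I).a' n)
      (((d.DJ J).DI I).b n) (((d.DJ J).DI I).b' n) ((x : ℂ), (y : ℂ)) =
      d.c n * ((monJ (d.a n) (d.b n) x y I J : ℝ) : ℂ) := by
  obtain ⟨i1, i2, i3, i4, i5⟩ := zj_DI_data (d.DJ J) I n
  obtain ⟨j1, j2, j3, j4, j5⟩ := zj_DJ_data d J n
  rw [zj_T_real, i1, i2, i3, i4, i5, j1, j2, j3, j4, j5, hd, hd']
  unfold monJ
  by_cases hI : cJ I (d.a n) (d.b n) = 0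
  · rw [hI]
    simp
  by_cases hJ : cJ J (d.a n) (d.b n) = 0
  · rw [hJ]
    simp
  obtain ⟨h1, h2⟩ := zj_cJ_ne I _ _ hI
  obtain ⟨h3, h4⟩ := zj_cJ_ne J _ _ hJ
  have e1 : d.a n - eX I + (d.a n - eX J) = 2 * d.a n - eX I - eX J := by omega
  have e2 : d.b n - eY I + (d.b n - eY J) = 2 * d.b n - eY I - eY J := by omega
  rw [e1, e2]
  push_cast
  ring

theorem st_ZJET : ST_ZJET := by
  intro k hk x y hx hy hxy
  have hp : (((x : ℂ), (y : ℂ)) : E) ∈ zjU := by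
    show ‖(x : ℂ) * (y : ℂ)‖ < 1
    rw [norm_mul, Complex.norm_real, Complex.norm_real, Real.norm_of_nonneg hx,
      Real.norm_of_nonneg hy]
    exact hxy
  refine ⟨fun I J => ?_, fun I J => ?_⟩
  · rw [zj_jet (zjTh k) (zj_adm_Th k hk) (Zk k) (fun p _ => zj_Zk k p) I J _ hp]
    unfold ZJDat.S momZ
    rw [Complex.ofReal_tsum]
    refine tsum_congr fun n => ?_
    rw [zj_terms (zjTh k) rfl rfl I J n x y]
    simp [zjTh]
  · rw [zj_jet (zjBd k) (zj_adm_Bd k) _ (fun p _ => zj_Bd k p) I J _ hp]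
    unfold ZJDat.S momB
    rw [tsum_fintype, Fin.sum_univ_two, zj_terms (zjBd k) rfl rfl I J 0 x y,
      zj_terms (zjBd k) rfl rfl I J 1 x y]
    simp only [zjBd, Matrix.cons_val_zero, Matrix.cons_val_one]
    push_cast
    ring

end RicP
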